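import Pool.Agent.Y997.OBL.All
import Pool.Agent.W424.KI.Fin
import Pool.Agent.W5h17.AC.Top

/-!
# The accessible vertices of the largest critical cluster: all scales, with high probability

Critical bond percolation on `ℤ²` in the box `Λ_n = {0, …, n}²`: `F` is the set of open edges,
uniformly distributed on the subsets of `edges n` (`Plain.prob`), `Plain.box n` is the set of the
vertices, `Plain.cluster F v` the cluster of `v`, and `Plain.Largest n F v` says that this cluster
has the largest Euclidean diameter.  These definitions are those of the starting file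
`Pool/Agent/Results/MP_6bd702_pr/PerimeterExponent.lean` (in `Pool/Agent/H342R2/Per/Plain.lean`).

The starting file `AccessibleVerticesOrder.lean` has the upper bound with high probability at the
lattice scale, and the lower bounds with some positive probability.  Here both bounds hold with
probability arbitrarily close to one, at every scale `m`, and, up to squares of logarithms,
simultaneously at all scales.

Lower bound: the set of vertices with thick paths of project OBL (`Pool.Agent.Y997.OBL.a_OPAR`,
helper997 and others) gives `c n ^ (4/3)` accessible vertices with high probability; few accessible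
vertices are close to the boundary of `Λ_n`, and the local second moment of the accessible vertices
away from the boundary (three arms at two vertices, adapted from project AV of helper801 and
helper797) bounds the number of the pairs at distance `m`.  Upper bound: first moment of the number
of squares of side `m` with three arms (`Pool.Agent.W424.KI.u3`).
-/

set_option autoImplicit false

namespace Pool.Agent.Results.MP_6bd702_pr.AccessibleAllScales

open H342P Filter Topology

/-- The square lattice without the vertices of the set `C`: nearest neighbours, both outside `C`. -/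
def avoidGraph (C : Set (ℤ × ℤ)) : SimpleGraph (ℤ × ℤ) :=
  SimpleGraph.fromRel (fun u w => (∃ e : Plain.Edge, Plain.fst e = u ∧ Plain.snd e = w) ∧
    u ∉ C ∧ w ∉ C)

/-- The vertex `w` of the cluster `C` of `v` is accessible: some lattice neighbour `p` of `w` is not
in `C` and is joined to a vertex `q` outside `Λ_n` by a lattice path (through open or closed edges)
which avoids `C`. -/
def Accessible (n : ℕ) (F : Finset Plain.Edge) (v w : ℤ × ℤ) : Prop :=
  w ∈ Plain.cluster F v ∧ ∃ (e : Plain.Edge) (p q : ℤ × ℤ),
    ((Plain.fst e = w ∧ Plain.snd e = p) ∨ (Plain.fst e = p ∧ Plain.snd e = w)) ∧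
    p ∉ Plain.cluster F v ∧ q ∉ Plain.box n ∧ (avoidGraph (Plain.cluster F v)).Reachable p q

open Classical in
/-- The set of the accessible vertices of the cluster of `v` in `Λ_n`. -/
noncomputable def accessible (n : ℕ) (F : Finset Plain.Edge) (v : ℤ × ℤ) : Finset (ℤ × ℤ) :=
  (Plain.box n).filter (fun w => Accessible n F v w)

/-- The number of the squares `[m i, m (i + 1)) × [m j, m (j + 1))` which contain accessible
vertices of the cluster of `v`. -/
noncomputable def squares (n m : ℕ) (F : Finset Plain.Edge) (v : ℤ × ℤ) : ℕ :=
  ((accessible n F v).image (fun w => (w.1 / (m : ℤ), w.2 / (m : ℤ)))).card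

/-- (0) For `m = 1` the number of squares is the number of accessible vertices.  For every `δ > 0`
there are `c, K > 0` and `n₀` such that for all `n ≥ n₀`: (1) for every `m` with `1 ≤ m ≤ n`, with
probability at least `1 - δ`, for every cluster of largest Euclidean diameter, the number of the
squares of side `m` which contain accessible vertices is between `c (n / m) ^ (4/3)` and
`K (n / m) ^ (4/3)`; (2) with probability at least `1 - δ`, for every cluster of largest Euclidean
diameter and for all `1 ≤ m ≤ n` simultaneously, this number is between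
`c (n / m) ^ (4/3) / (1 + log (n / m)) ^ 2` and `K (n / m) ^ (4/3) (1 + log (n / m)) ^ 2`.
(3) For every `ε > 0` the probability that the number of accessible vertices of every cluster of
largest diameter is in `(n ^ (4/3 - ε), n ^ (4/3 + ε))` tends to one. -/
theorem result :
    (∀ (n : ℕ) (F : Finset Plain.Edge) (v : ℤ × ℤ), squares n 1 F v = (accessible n F v).card) ∧
    (∀ δ : ℝ, 0 < δ → ∃ (c K : ℝ) (n₀ : ℕ), 0 < c ∧ 0 < K ∧ ∀ n : ℕ, n₀ ≤ n →
      (∀ m : ℕ, 1 ≤ m → m ≤ n → 1 - δ ≤ Plain.prob n (fun F => ∀ v, Plain.Largest n F v →
        c * ((n : ℝ) / m) ^ (4 / 3 : ℝ) ≤ (squares n m F v : ℝ) ∧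
          (squares n m F v : ℝ) ≤ K * ((n : ℝ) / m) ^ (4 / 3 : ℝ))) ∧
      1 - δ ≤ Plain.prob n (fun F => ∀ v, Plain.Largest n F v → ∀ m : ℕ, 1 ≤ m → m ≤ n →
        c * ((n : ℝ) / m) ^ (4 / 3 : ℝ) / (1 + Real.log ((n : ℝ) / m)) ^ 2 ≤
            (squares n m F v : ℝ) ∧
          (squares n m F v : ℝ) ≤
            K * ((n : ℝ) / m) ^ (4 / 3 : ℝ) * (1 + Real.log ((n : ℝ) / m)) ^ 2)) ∧
    (∀ ε : ℝ, 0 < ε → Tendsto (fun n : ℕ => Plain.prob n (fun F => ∀ v, Plain.Largest n F v →
      (n : ℝ) ^ (4 / 3 - ε) < ((accessible n F v).card : ℝ) ∧
        ((accessible n F v).card : ℝ) < (n : ℝ) ^ (4 / 3 + ε))) atTop (𝓝 1)) := by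
  obtain ⟨C, hC, hU⟩ := Pool.Agent.W424.KI.u3
  have hO := Pool.Agent.Y997.OBL.a_OPAR
  refine ⟨Pool.Agent.W5h17.AC.squares_one, fun δ hδ => ?_, fun ε hε => ?_⟩
  · exact Pool.Agent.W5h17.AC.both hC hU hO hδ
  · exact Pool.Agent.W5h17.AC.weak hC hU hO hε

end Pool.Agent.Results.MP_6bd702_pr.AccessibleAllScales
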