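import Pool.Agent.W5h49.Pin.Fin
import Pool.Agent.W125.PD.Det
import Pool.Agent.W135.PD.Ite
import Pool.Agent.W320.PD.Big
import Pool.Agent.W320.PD.HB
import Pool.Agent.W320.PD.Low
import Pool.Agent.W320.PD.Rot
import Pool.Agent.W347.DPAA
import Pool.Agent.W583.PDCen
import Pool.Agent.W806.PD.Tri
import Pool.Agent.W924.PD.PAR

/-!
# The number of the cutting edges of the largest critical cluster has order `n ^ (3/4)`

Critical bond percolation on `ℤ²` in the box `Λ_n = {0, …, n}²`: `F` is the set of open edges,
uniformly distributed on the subsets of `Plain.edges n`, `Plain.prob n` is the probability,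
`Plain.cluster F v` is the set of the vertices of the cluster of `v`, `Plain.clusterEdges F v` the
set of its edges, and `Plain.Largest n F v` says that this cluster has the largest Euclidean
diameter.  `Plain.side₁ e` and `Plain.side₂ e` are the two faces at the edge `e`, and
`Plain.Outer F v f` says that the face `f` is in the unbounded component of the complement of the
cluster of `v`.  All these definitions are those of the starting file
`Pool/Agent/Results/MP_6bd702_pr/PerimeterExponent.lean` (in `Pool/Agent/H342R2/Per/Plain.lean`).

An open edge is a cut edge of size `r` if its removal splits its cluster into two parts, both of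
which contain a vertex at distance at least `r` from the edge.  If in addition both sides of the
edge are in the unbounded component of the complement of the cluster, then the closed path which
traces the outer boundary of the cluster passes through this edge twice (once in each direction),
and it goes to distance at least about `r` on both of the arcs between these two passages.

Upper bound: four arms in an annulus around the edge (probability at most `C (d / k) ^ (5/4)`),
independent of one arm outside of it, at the boundary of the box (exponent `1/3`, which is larger
than `1/4`: this is needed for the edges near the boundary).  Lower bound: the theorem on the number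
of the pinches of the outer boundary in the proof of the result `DoublePoints` of this folder, and
planarity (an edge of the cluster both sides of which are in the unbounded face is a cut edge).
-/

set_option autoImplicit false

namespace Pool.Agent.Results.MP_6bd702_pr.CuttingEdges

open H342P Filter Topology

open Classical in
/-- The cut edges of size `r` of the configuration `F`: the open edges `e` whose two ends are not
joined by open edges after the removal of `e`, such that (after this removal) each of the two ends
of `e` is joined to a vertex at Euclidean distance at least `r` from `e` (from its first end). -/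
noncomputable def cutEdges (F : Finset Plain.Edge) (r : ℝ) : Finset Plain.Edge :=
  F.filter (fun e => Plain.snd e ∉ Plain.cluster (F.erase e) (Plain.fst e) ∧
    (∃ a ∈ Plain.cluster (F.erase e) (Plain.fst e), r ^ 2 ≤ (Plain.sqDist (Plain.fst e) a : ℝ)) ∧
    ∃ b ∈ Plain.cluster (F.erase e) (Plain.snd e), r ^ 2 ≤ (Plain.sqDist (Plain.fst e) b : ℝ))

open Classical in
/-- The cut edges of size `r` of the cluster of `v` both sides of which are in the unbounded
component of the complement of this cluster. -/
noncomputable def pinchEdges (F : Finset Plain.Edge) (v : ℤ × ℤ) (r : ℝ) : Finset Plain.Edge :=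
  (cutEdges F r).filter (fun e => e ∈ Plain.clusterEdges F v ∧ Plain.Outer F v (Plain.side₁ e) ∧
    Plain.Outer F v (Plain.side₂ e))

/-- The mean of `X F`: all sets `F` of edges of the box `Λ_n` are equally likely. -/
noncomputable def mean (n : ℕ) (X : Finset Plain.Edge → ℝ) : ℝ :=
  (∑ F ∈ (Plain.edges n).powerset, X F) / 2 ^ (Plain.edges n).card

theorem tri' : Pool.Agent.W822.PD.PD_TRI :=
  Pool.Agent.W806.PDTri.tri Pool.Agent.W583.PDCen.cen Pool.Agent.W125.PD.det

theorem low' : Pool.Agent.W822.PD.PD_LOW :=
  Pool.Agent.W320.PD.low Pool.Agent.W135.PD.t_ITE Pool.Agent.W320.PD.rot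

theorem par' : Pool.Agent.W822.PD.PD_PAR :=
  Pool.Agent.W924.PD.par tri' low' Pool.Agent.W320.PD.big

/-- (1) There is `C` such that, for all `1 ≤ r ≤ n`, the mean number of the cut edges of size `r`
of all the clusters of `Λ_n` together is at most `C n ^ 2 r ^ (-5/4)`.
(2) For every `δ > 0` there are `η₀, c > 0` such that, for every `0 < η ≤ η₀`, there is `K` such
that, for all large `n`, with probability at least `1 - δ`, for every cluster of largest Euclidean
diameter in `Λ_n`: at least `c n ^ (3/4)` of the cut edges of size `η n` of this cluster have both
sides in the unbounded component of its complement, while the number of all the cut edges of size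
`η n` (of all the clusters) is at most `K n ^ (3/4)`. -/
theorem result :
    (∃ C : ℝ, 0 < C ∧ ∀ (n : ℕ) (r : ℝ), 1 ≤ r → r ≤ n →
      mean n (fun F => ((cutEdges F r).card : ℝ)) ≤ C * ((n : ℝ) ^ 2 * r ^ (-(5 / 4) : ℝ))) ∧
    (∀ δ : ℝ, 0 < δ → ∃ η₀ c : ℝ, 0 < η₀ ∧ 0 < c ∧ ∀ η : ℝ, 0 < η → η ≤ η₀ →
      ∃ K : ℝ, c < K ∧ ∀ᶠ n : ℕ in atTop,
        1 - δ ≤ Plain.prob n (fun F => ∀ v, Plain.Largest n F v →
          c * (n : ℝ) ^ (3 / 4 : ℝ) ≤ ((pinchEdges F v (η * n)).card : ℝ) ∧
            ((cutEdges F (η * n)).card : ℝ) ≤ K * (n : ℝ) ^ (3 / 4 : ℝ))) :=
  Pool.Agent.W5h49.Pin.main Pool.Agent.W347.DPAA.aa Pool.Agent.W320.PD.HB.hb par'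

end Pool.Agent.Results.MP_6bd702_pr.CuttingEdges
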