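import Pool.Agent.H50.DT.Tail

/-!
# The law of the diameter of the outer perimeter of the largest critical cluster

Critical bond percolation on `ℤ²` in the box `Λ_n = {0, …, n}²`: `F` is the set of open edges,
uniformly distributed on the subsets of `edges n` (`Plain.prob`).  `Plain.Largest n F v` says that
the cluster of `v` has the largest Euclidean diameter among all clusters of `Λ_n`.
`outerBoundary n F v` is the boundary of the unbounded component of the complement of this cluster
(vertices and closed edge segments), scaled by `1 / n`.  `Curve` is the space of curves with the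
distance modulo increasing reparametrisation, and `lawOf n f` is the law of `f F`.
The definitions are in `Pool/Agent/H342R2/Per/Plain.lean` and in
`Pool/Agent/H342R3/Lim/{Defs,Curve,Law}.lean`.
-/

set_option autoImplicit false

namespace Pool.Agent.Results.MP_6bd702_pr.DiameterTails

open H342L H342P H342P.Plain MeasureTheory TopologicalSpace Filter Topology

/-- Let `C_n` be a cluster of largest Euclidean diameter of critical percolation in `{0, …, n}²`
(`sel` chooses one of them, by any rule), and `∂_n` its outer perimeter divided by `n`.  There are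
constants `c, C > 0` such that, for every `n`,
`c (x + 1/n) ^ (4/3) ≤ P(diam ∂_n ≥ √2 - x) ≤ C (x + 1/n) ^ (4/3)` for `0 ≤ x ≤ 1`, and
`exp (-C x⁻²) ≤ P(diam ∂_n ≤ x) ≤ exp (-c x⁻²)` for `1/n ≤ x < 1`; and every limit in law `μ` of
`∂_n` along a sequence of scales (in the space of curves modulo reparametrisation) satisfies
`c x ^ (4/3) ≤ μ(diam ≥ √2 - x) ≤ C x ^ (4/3)` for `0 < x ≤ 1` and
`exp (-C x⁻²) ≤ μ(diam ≤ x) ≤ exp (-c x⁻²)` for `0 < x < 1`. -/
theorem result : ∃ c C : ℝ, 0 < c ∧ 0 < C ∧
    ∀ sel : (n : ℕ) → Finset Edge → ℤ × ℤ,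
      (∀ n F, 0 < n → F ⊆ edges n → Largest n F (sel n F)) →
      (∀ n : ℕ, 0 < n →
        (∀ x : ℝ, 0 ≤ x → x ≤ 1 →
          c * (x + 1 / n) ^ (4 / 3 : ℝ) ≤
            prob n (fun F => Real.sqrt 2 - x ≤ Metric.diam (outerBoundary n F (sel n F))) ∧
          prob n (fun F => Real.sqrt 2 - x ≤ Metric.diam (outerBoundary n F (sel n F))) ≤
            C * (x + 1 / n) ^ (4 / 3 : ℝ)) ∧
        (∀ x : ℝ, 1 / n ≤ x → x < 1 →
          Real.exp (-(C / x ^ 2)) ≤
            prob n (fun F => Metric.diam (outerBoundary n F (sel n F)) ≤ x) ∧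
          prob n (fun F => Metric.diam (outerBoundary n F (sel n F)) ≤ x) ≤
            Real.exp (-(c / x ^ 2)))) ∧
      (∀ γ : (n : ℕ) → Finset Edge → Curve,
        (∀ n F, 0 < n → F ⊆ edges n →
          Set.range (γ n F).path = outerBoundary n F (sel n F)) →
        ∀ (k : ℕ → ℕ) (μ : ProbabilityMeasure Curve), Tendsto k atTop atTop →
          Tendsto (fun i => lawOf (k i) (γ (k i))) atTop (𝓝 μ) →
          (∀ x : ℝ, 0 < x → x ≤ 1 →
            ENNReal.ofReal (c * x ^ (4 / 3 : ℝ)) ≤
              (μ : Measure Curve) {g | Real.sqrt 2 - x ≤ Metric.diam (Set.range g.path)} ∧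
            (μ : Measure Curve) {g | Real.sqrt 2 - x ≤ Metric.diam (Set.range g.path)} ≤
              ENNReal.ofReal (C * x ^ (4 / 3 : ℝ))) ∧
          (∀ x : ℝ, 0 < x → x < 1 →
            ENNReal.ofReal (Real.exp (-(C / x ^ 2))) ≤
              (μ : Measure Curve) {g | Metric.diam (Set.range g.path) ≤ x} ∧
            (μ : Measure Curve) {g | Metric.diam (Set.range g.path) ≤ x} ≤
              ENNReal.ofReal (Real.exp (-(c / x ^ 2))))) := by
  obtain ⟨c, C, hc, hC, hT⟩ := H50DT.tails
  have h3 : 1 ≤ (3:ℝ) ^ (4 / 3 : ℝ) := Real.one_le_rpow (by norm_num) (by norm_num)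
  have hCC : C ≤ C * (3:ℝ) ^ (4 / 3 : ℝ) + 4 := by nlinarith
  have hcc : c / 4 ≤ c := by linarith
  refine ⟨c / 4, C * (3:ℝ) ^ (4 / 3 : ℝ) + 4, by positivity, by positivity,
    fun sel hsel => ⟨fun n hn => ⟨fun x hx hx1 => ?_, fun x hx hx1 => ?_⟩, ?_⟩⟩
  · obtain ⟨g1, g2⟩ := (hT n hn (sel n) (hsel n · hn)).1 x hx hx1
    have hp : 0 ≤ (x + 1 / (n:ℝ)) ^ (4 / 3 : ℝ) := by positivity
    exact ⟨(mul_le_mul_of_nonneg_right hcc hp).trans g1,
      g2.trans (mul_le_mul_of_nonneg_right hCC hp)⟩
  · obtain ⟨g1, g2⟩ := (hT n hn (sel n) (hsel n · hn)).2 x hx hx1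
    constructor
    · refine le_trans (Real.exp_le_exp.mpr ?_) g1
      have := div_le_div_of_nonneg_right hCC (sq_nonneg x)
      linarith
    · refine g2.trans (Real.exp_le_exp.mpr ?_)
      have := div_le_div_of_nonneg_right hcc (sq_nonneg x)
      linarith
  · intro γ hγ k μ hk hμ
    have hT' : ∀ n : ℕ, 0 < n → H50DT.Tails c C n (fun F => H50DT.dia (γ n F)) := by
      intro n hn
      have e : ∀ A : ℝ → Prop, prob n (fun F => A (H50DT.dia (γ n F))) =
          prob n (fun F => A (Metric.diam (outerBoundary n F (sel n F)))) := by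
        intro A
        rw [prob_eq, prob_eq]
        apply H974.Pr_congr
        intro F hF
        rw [← edges_eq] at hF
        unfold H50DT.dia
        rw [hγ n F hn hF]
      have h4 := hT n hn (sel n) (hsel n · hn)
      refine ⟨fun x hx hx1 => ?_, fun x hx hx1 => ?_⟩
      · rw [e (fun d => Real.sqrt 2 - x ≤ d)]
        exact h4.1 x hx hx1
      · rw [e (fun d => d ≤ x)]
        exact h4.2 x hx hx1
    obtain ⟨g1, g2⟩ := H50DT.tails_lim hc hC hT' hk hμ
    refine ⟨fun x hx hx1 => ?_, fun x hx hx1 => ?_⟩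
    · obtain ⟨g3, g4⟩ := g1 x hx hx1
      refine ⟨le_trans (ENNReal.ofReal_le_ofReal ?_) g3, g4⟩
      exact mul_le_mul_of_nonneg_right hcc (by positivity)
    · obtain ⟨g3, g4⟩ := g2 x hx hx1
      refine ⟨le_trans (ENNReal.ofReal_le_ofReal (Real.exp_le_exp.mpr ?_)) g3, g4⟩
      have := div_le_div_of_nonneg_right hCC (sq_nonneg x)
      linarith

end Pool.Agent.Results.MP_6bd702_pr.DiameterTails
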