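import Pool.Agent.W5h17.LT.Top
import Pool.Agent.Results.MP_6bd702_pr.PerimeterExponent

/-!
# The lower tail of the outer perimeter of the largest critical percolation cluster

Critical bond percolation on `ℤ²` in the box `Λ_n = {0, …, n}²`: `F` is the set of open edges,
uniformly distributed on the subsets of `edges n` (`Plain.prob`).  `Plain.Largest n F v` says that
the cluster of `v` has the largest Euclidean diameter, `Plain.perimeter F v` is the number of steps
of the closed lattice path which traces the boundary of the unbounded component of the complement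
of this cluster, and `Plain.perimeterEdges F v` is the number of different edges on it.  All these
definitions are in `Pool/Agent/H342R2/Per/Plain.lean`.  The law of a function of `F` is
`H342L.lawOf` (`Pool/Agent/H342R3/Lim/Law.lean`).

The upper tail is in the starting file `PerimeterTail.lean`.  For the lower tail there are two
ways to have an outer perimeter at most `n ^ (7/4) / X`: all clusters are small (cost `(n / y) ^ 2`
if all diameters are at most `y`), and the largest cluster is thin: a cluster of diameter `y` and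
outer perimeter `x y ^ (7/4)` is at least as unlikely as a cluster in a tube of length `y` and width
`x ^ (4/3) y` (cost `x ^ (-4/3)`).  The optimum is `y = n X ^ (-4/13)`, cost `X ^ (8/13)`, until the
width of the tube reaches the lattice scale, at `X = n ^ (13/12)`; from there on the cost is
`X ^ 2 / n ^ (3/2)`.

Upper bound: the interface around the largest cluster is followed from scale to scale; in each
scale it makes with probability bounded below the typical number of steps (`orb_fast`).  Lower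
bound: a tube which is crossed in the long direction, without crossings of the surrounding strips;
two arms inside the tube are nearly independent of this event (`quasi`).
-/

set_option autoImplicit false

namespace Pool.Agent.Results.MP_6bd702_pr.PerimeterLowerTail

open H342P Filter Topology MeasureTheory

/-- Uniformly in `n ≥ 1` and `1 ≤ X ≤ n ^ (7/4)`, the outer perimeter of the largest cluster is at
most `n ^ (7/4) / X` with probability `exp (- Θ (X ^ (8/13) + X ^ 2 / n ^ (3/2)))`, so
`exp (- Θ (X ^ (8/13)))` for `X ≤ n ^ (13/12)` and `exp (- Θ (X ^ 2 / n ^ (3/2)))` for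
`X ≥ n ^ (13/12)`; and every subsequential limit in law of `perimeter / n ^ (7/4)` is at most
`1 / X` with probability `exp (- Θ (X ^ (8/13)))`, for all `X ≥ 1`. -/
theorem result : ∃ c C : ℝ, 0 < c ∧ 0 < C ∧
    (∀ (n : ℕ) (X : ℝ), 1 ≤ n → 1 ≤ X → X ≤ (n : ℝ) ^ (7/4 : ℝ) →
      Real.exp (-(C * (X ^ (8/13 : ℝ) + X ^ 2 / (n : ℝ) ^ (3/2 : ℝ)))) ≤
        Plain.prob n (fun F => ∀ v, Plain.Largest n F v →
          (Plain.perimeter F v : ℝ) ≤ (n : ℝ) ^ (7/4 : ℝ) / X) ∧
      Plain.prob n (fun F => ∃ v, Plain.Largest n F v ∧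
          (Plain.perimeterEdges F v : ℝ) ≤ (n : ℝ) ^ (7/4 : ℝ) / X) ≤
        C * Real.exp (-(c * (X ^ (8/13 : ℝ) + X ^ 2 / (n : ℝ) ^ (3/2 : ℝ))))) ∧
    (∀ sel : ℕ → Finset Plain.Edge → ℤ × ℤ, (∀ n F, Plain.Largest n F (sel n F)) →
      ∀ φ : ℕ → ℕ, Tendsto φ atTop atTop → ∀ μ : ProbabilityMeasure ℝ,
      Tendsto (fun i => H342L.lawOf (φ i) fun F =>
        (Plain.perimeter F (sel (φ i) F) : ℝ) / (φ i : ℝ) ^ (7/4 : ℝ)) atTop (𝓝 μ) →
      ∀ X : ℝ, 1 ≤ X →
        ENNReal.ofReal (Real.exp (-(C * X ^ (8/13 : ℝ)))) ≤ (μ : Measure ℝ) {y | y ≤ 1 / X} ∧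
        (μ : Measure ℝ) {y | y ≤ 1 / X} ≤
          ENNReal.ofReal (C * Real.exp (-(c * X ^ (8/13 : ℝ))))) := by
  obtain ⟨⟨c, hc, hL⟩, C, hC, hU⟩ := PerimeterExponent.inputs
  obtain ⟨c1, C1, h1, h2, hup⟩ := Pool.Agent.W5h17.LT.top_up hc hC hL hU
  obtain ⟨K, h3, hlow⟩ := Pool.Agent.W5h17.LT.top_low hC hU
  have hM1 : C1 ≤ max C1 (2 * K) := le_max_left _ _
  have hM2 : 2 * K ≤ max C1 (2 * K) := le_max_right _ _
  refine ⟨c1 / 2, max C1 (2 * K), by positivity, lt_of_lt_of_le h2 hM1, fun n X hn hX hXn => ?_,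
    fun sel hsel φ hφ μ hμ X hX => ?_⟩
  · have hE : 0 ≤ X ^ (8/13 : ℝ) + X ^ 2 / (n : ℝ) ^ (3/2 : ℝ) := by positivity
    constructor
    · refine le_trans (Real.exp_le_exp.mpr ?_) (hlow n X hn hX hXn)
      have h4 : K * (X ^ (8/13 : ℝ) + X ^ 2 / (n : ℝ) ^ (3/2 : ℝ)) ≤
          max C1 (2 * K) * (X ^ (8/13 : ℝ) + X ^ 2 / (n : ℝ) ^ (3/2 : ℝ)) :=
        mul_le_mul_of_nonneg_right (by linarith) hE
      linarith
    · refine (hup n X hn (by linarith) hXn).trans (mul_le_mul hM1 (Real.exp_le_exp.mpr ?_)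
        (Real.exp_nonneg _) (h2.le.trans hM1))
      have h4 : c1 / 2 * (X ^ (8/13 : ℝ) + X ^ 2 / (n : ℝ) ^ (3/2 : ℝ)) ≤
          c1 * (X ^ (8/13 : ℝ) + X ^ 2 / (n : ℝ) ^ (3/2 : ℝ)) :=
        mul_le_mul_of_nonneg_right (by linarith) hE
      linarith
  · obtain ⟨g1, g2⟩ := Pool.Agent.W5h17.LT.top_lim h1 h2 h3 hup hlow hsel hφ hμ hX
    have hE : 0 ≤ X ^ (8/13 : ℝ) := by positivity
    constructor
    · refine le_trans (ENNReal.ofReal_le_ofReal (Real.exp_le_exp.mpr ?_)) g1
      have h4 : 2 * K * X ^ (8/13 : ℝ) ≤ max C1 (2 * K) * X ^ (8/13 : ℝ) :=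
        mul_le_mul_of_nonneg_right hM2 hE
      linarith
    · exact g2.trans (ENNReal.ofReal_le_ofReal
        (mul_le_mul_of_nonneg_right hM1 (Real.exp_nonneg _)))

end Pool.Agent.Results.MP_6bd702_pr.PerimeterLowerTail
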